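import Pool.Agent.Helper89.TT.Basic

set_option autoImplicit false

open Finset

namespace Pool.Agent.Helper89.TT

/-- the data of a rich quadruple -/
def tlP (N M : ℕ) (z : ℕ × ℕ × (ℤ × ℤ × ℤ) × (ℤ × ℤ × ℤ) × ℕ) : Prop :=
  1 ≤ z.1 ∧ z.1 ≤ N ∧ M * z.1 ≤ N ∧ 1 ≤ z.2.1 ∧ z.2.1 ≤ N ∧ IsSquare (z.1 ^ 2 + z.2.1 ^ 2) ∧
  Side z.1 z.2.2.1.1 z.2.2.1.2.1 z.2.2.1.2.2 ∧
  Side z.2.1 z.2.2.2.1.1 z.2.2.2.1.2.1 z.2.2.2.1.2.2 ∧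
  z.2.2.1.1 + z.2.2.2.1.1 ≠ 0 ∧
  (z.2.2.1.2.1 + z.2.2.2.1.2.1) ^ 2 -
    4 * (z.2.2.1.1 + z.2.2.2.1.1) * (z.2.2.1.2.2 + z.2.2.2.1.2.2) ≠ 0 ∧
  z.2.2.2.2 ≤ N ∧
  IsSquare ((z.2.2.1.1 + z.2.2.2.1.1) * ((z.2.2.2.2 ^ 2 : ℕ) : ℤ) ^ 2 +
    (z.2.2.1.2.1 + z.2.2.2.1.2.1) * ((z.2.2.2.2 ^ 2 : ℕ) : ℤ) +
    (z.2.2.1.2.2 + z.2.2.2.1.2.2))

/-- innermost count -/
theorem tl_L4 (hSC : ST_SC) (e : ℝ) (D : ℝ) (N M : ℕ) (hN : 1 ≤ N)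
    (hD : ∀ a b c : ℤ,
      |a| ≤ 4 * (N : ℤ) ^ 4 → |b| ≤ 4 * (N : ℤ) ^ 4 → |c| ≤ 4 * (N : ℤ) ^ 4 → a ≠ 0 →
      b ^ 2 - 4 * a * c ≠ 0 →
      ∀ S : Finset ℕ, (∀ x ∈ S, x ≤ 4 * N ^ 4 ∧ IsSquare (a * (x : ℤ) ^ 2 + b * (x : ℤ) + c)) →
      (S.card : ℝ) ≤ D * (N : ℝ) ^ e)
    (x0 y0 : ℕ) (s0 t0 : ℤ × ℤ × ℤ)
    (F : Finset (ℕ × ℕ × (ℤ × ℤ × ℤ) × (ℤ × ℤ × ℤ) × ℕ))
    (hF : ∀ z ∈ F, tlP N M z ∧ z.1 = x0 ∧ z.2.1 = y0 ∧ z.2.2.1 = s0 ∧ z.2.2.2.1 = t0)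
    (hDN : 0 ≤ D * (N : ℝ) ^ e) :
    (F.card : ℝ) ≤ D * (N : ℝ) ^ e := by
  classical
  rcases F.eq_empty_or_nonempty with h0 | ⟨w, hw⟩
  · rw [h0, Finset.card_empty, Nat.cast_zero]
    exact hDN
  · obtain ⟨hP, hx, hy, hs, ht⟩ := hF w hw
    obtain ⟨h1, h2, h3, h4, h5, h6, h7, h8, h9, h10, h11, h12⟩ := hP
    rw [hx] at h1 h2 h3 h6 h7
    rw [hy] at h4 h5 h6 h8
    rw [hs] at h7 h9 h10
    rw [ht] at h8 h9 h10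
    obtain ⟨ha1, ha2, ha3⟩ := hSC.2 _ _ _ _ h7
    obtain ⟨hb1, hb2, hb3⟩ := hSC.2 _ _ _ _ h8
    have hxN : (x0 : ℤ) ^ 4 ≤ (N : ℤ) ^ 4 :=
      pow_le_pow_left₀ (by positivity) (by exact_mod_cast h2) 4
    have hyN : (y0 : ℤ) ^ 4 ≤ (N : ℤ) ^ 4 :=
      pow_le_pow_left₀ (by positivity) (by exact_mod_cast h5) 4
    have hN4 : (0 : ℤ) ≤ (N : ℤ) ^ 4 := by positivity
    have k1 : |s0.1 + t0.1| ≤ 4 * (N : ℤ) ^ 4 := by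
      refine (abs_add_le _ _).trans ?_
      linarith
    have k2 : |s0.2.1 + t0.2.1| ≤ 4 * (N : ℤ) ^ 4 := by
      refine (abs_add_le _ _).trans ?_
      linarith
    have k3 : |s0.2.2 + t0.2.2| ≤ 4 * (N : ℤ) ^ 4 := by
      refine (abs_add_le _ _).trans ?_
      linarith
    refine card_le_of_inj F (fun z => z.2.2.2.2 ^ 2) _ ?_ ?_
    · intro z hz z' hz' hzz
      obtain ⟨_, e1, e2, e3, e4⟩ := hF z hz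
      obtain ⟨_, f1, f2, f3, f4⟩ := hF z' hz'
      have e5 : z.2.2.2.2 = z'.2.2.2.2 := by
        exact Nat.pow_left_injective (n := 2) (by norm_num) hzz
      obtain ⟨a1, a2, a3, a4, a5⟩ := z
      obtain ⟨b1, b2, b3, b4, b5⟩ := z'
      simp only at e1 e2 e3 e4 e5 f1 f2 f3 f4
      rw [e1, e2, e3, e4, e5, f1, f2, f3, f4]
    · refine hD _ _ _ k1 k2 k3 h9 h10 _ ?_
      intro U hU
      obtain ⟨z, hz, rfl⟩ := Finset.mem_image.1 hU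
      obtain ⟨hP', e1, e2, e3, e4⟩ := hF z hz
      obtain ⟨q1, q2, q3, q4, q5, q6, q7, q8, q9, q10, q11, q12⟩ := hP'
      constructor
      · show z.2.2.2.2 ^ 2 ≤ 4 * N ^ 4
        calc z.2.2.2.2 ^ 2 ≤ N ^ 2 := Nat.pow_le_pow_left q11 2
          _ ≤ N ^ 4 := Nat.pow_le_pow_right hN (by norm_num)
          _ ≤ 4 * N ^ 4 := by omega
      · rw [e3, e4] at q12
        exact q12

/-- count for given `x, y, s` -/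
theorem tl_L3 (hSC : ST_SC) (e : ℝ) (C2 D : ℝ) (N M : ℕ) (hN : 1 ≤ N)
    (hD : ∀ a b c : ℤ,
      |a| ≤ 4 * (N : ℤ) ^ 4 → |b| ≤ 4 * (N : ℤ) ^ 4 → |c| ≤ 4 * (N : ℤ) ^ 4 → a ≠ 0 →
      b ^ 2 - 4 * a * c ≠ 0 →
      ∀ S : Finset ℕ, (∀ x ∈ S, x ≤ 4 * N ^ 4 ∧ IsSquare (a * (x : ℤ) ^ 2 + b * (x : ℤ) + c)) →
      (S.card : ℝ) ≤ D * (N : ℝ) ^ e)
    (hC : ∀ x : ℕ, 1 ≤ x → x ≤ N →
      ∀ S : Finset (ℤ × ℤ × ℤ), (∀ s ∈ S, Side x s.1 s.2.1 s.2.2) →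
      (S.card : ℝ) ≤ C2 * (N : ℝ) ^ e)
    (hDN : 0 ≤ D * (N : ℝ) ^ e) (hCN : 0 ≤ C2 * (N : ℝ) ^ e)
    (x0 y0 : ℕ) (s0 : ℤ × ℤ × ℤ)
    (F : Finset (ℕ × ℕ × (ℤ × ℤ × ℤ) × (ℤ × ℤ × ℤ) × ℕ))
    (hF : ∀ z ∈ F, tlP N M z ∧ z.1 = x0 ∧ z.2.1 = y0 ∧ z.2.2.1 = s0) :
    (F.card : ℝ) ≤ (C2 * (N : ℝ) ^ e) * (D * (N : ℝ) ^ e) := by
  classical
  refine fib_le F (fun z => z.2.2.2.1) _ _ ?_ hDN ?_
  · rcases F.eq_empty_or_nonempty with h0 | ⟨w, hw⟩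
    · rw [h0, Finset.image_empty, Finset.card_empty, Nat.cast_zero]
      exact hCN
    · obtain ⟨hP, hx, hy, hs⟩ := hF w hw
      obtain ⟨h1, h2, h3, h4, h5, h6, h7, h8, h9, h10, h11, h12⟩ := hP
      rw [hy] at h4 h5
      refine hC y0 h4 h5 _ ?_
      intro t ht
      obtain ⟨z, hz, rfl⟩ := Finset.mem_image.1 ht
      obtain ⟨hP', e1, e2, e3⟩ := hF z hz
      obtain ⟨q1, q2, q3, q4, q5, q6, q7, q8, q9, q10, q11, q12⟩ := hP'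
      rw [e2] at q8
      exact q8
  · intro t _
    refine tl_L4 hSC e D N M hN hD x0 y0 s0 t _ ?_ hDN
    intro z hz
    obtain ⟨hz1, hz2⟩ := Finset.mem_filter.1 hz
    obtain ⟨hP', e1, e2, e3⟩ := hF z hz1
    exact ⟨hP', e1, e2, e3, hz2⟩

/-- count for given `x, y` -/
theorem tl_L2 (hSC : ST_SC) (e : ℝ) (C2 D : ℝ) (N M : ℕ) (hN : 1 ≤ N)
    (hD : ∀ a b c : ℤ,
      |a| ≤ 4 * (N : ℤ) ^ 4 → |b| ≤ 4 * (N : ℤ) ^ 4 → |c| ≤ 4 * (N : ℤ) ^ 4 → a ≠ 0 →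
      b ^ 2 - 4 * a * c ≠ 0 →
      ∀ S : Finset ℕ, (∀ x ∈ S, x ≤ 4 * N ^ 4 ∧ IsSquare (a * (x : ℤ) ^ 2 + b * (x : ℤ) + c)) →
      (S.card : ℝ) ≤ D * (N : ℝ) ^ e)
    (hC : ∀ x : ℕ, 1 ≤ x → x ≤ N →
      ∀ S : Finset (ℤ × ℤ × ℤ), (∀ s ∈ S, Side x s.1 s.2.1 s.2.2) →
      (S.card : ℝ) ≤ C2 * (N : ℝ) ^ e)
    (hDN : 0 ≤ D * (N : ℝ) ^ e) (hCN : 0 ≤ C2 * (N : ℝ) ^ e)
    (x0 y0 : ℕ)
    (F : Finset (ℕ × ℕ × (ℤ × ℤ × ℤ) × (ℤ × ℤ × ℤ) × ℕ))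
    (hF : ∀ z ∈ F, tlP N M z ∧ z.1 = x0 ∧ z.2.1 = y0) :
    (F.card : ℝ) ≤ (C2 * (N : ℝ) ^ e) * ((C2 * (N : ℝ) ^ e) * (D * (N : ℝ) ^ e)) := by
  classical
  refine fib_le F (fun z => z.2.2.1) _ _ ?_ (mul_nonneg hCN hDN) ?_
  · rcases F.eq_empty_or_nonempty with h0 | ⟨w, hw⟩
    · rw [h0, Finset.image_empty, Finset.card_empty, Nat.cast_zero]
      exact hCN
    · obtain ⟨hP, hx, hy⟩ := hF w hw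
      obtain ⟨h1, h2, h3, h4, h5, h6, h7, h8, h9, h10, h11, h12⟩ := hP
      rw [hx] at h1 h2
      refine hC x0 h1 h2 _ ?_
      intro t ht
      obtain ⟨z, hz, rfl⟩ := Finset.mem_image.1 ht
      obtain ⟨hP', e1, e2⟩ := hF z hz
      obtain ⟨q1, q2, q3, q4, q5, q6, q7, q8, q9, q10, q11, q12⟩ := hP'
      rw [e1] at q7
      exact q7
  · intro s _
    refine tl_L3 hSC e C2 D N M hN hD hC hDN hCN x0 y0 s _ ?_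
    intro z hz
    obtain ⟨hz1, hz2⟩ := Finset.mem_filter.1 hz
    obtain ⟨hP', e1, e2⟩ := hF z hz1
    exact ⟨hP', e1, e2, hz2⟩

/-- count for given `x` -/
theorem tl_L1 (hSC : ST_SC) (e : ℝ) (C1 C2 D : ℝ) (N M : ℕ) (hN : 1 ≤ N)
    (hD : ∀ a b c : ℤ,
      |a| ≤ 4 * (N : ℤ) ^ 4 → |b| ≤ 4 * (N : ℤ) ^ 4 → |c| ≤ 4 * (N : ℤ) ^ 4 → a ≠ 0 →
      b ^ 2 - 4 * a * c ≠ 0 →
      ∀ S : Finset ℕ, (∀ x ∈ S, x ≤ 4 * N ^ 4 ∧ IsSquare (a * (x : ℤ) ^ 2 + b * (x : ℤ) + c)) →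
      (S.card : ℝ) ≤ D * (N : ℝ) ^ e)
    (hC : ∀ x : ℕ, 1 ≤ x → x ≤ N →
      ∀ S : Finset (ℤ × ℤ × ℤ), (∀ s ∈ S, Side x s.1 s.2.1 s.2.2) →
      (S.card : ℝ) ≤ C2 * (N : ℝ) ^ e)
    (hB : ∀ a : ℕ, 1 ≤ a → a ≤ N →
      ∀ S : Finset ℕ, (∀ b ∈ S, 1 ≤ b ∧ b ≤ N ∧ IsSquare (a ^ 2 + b ^ 2)) →
      (S.card : ℝ) ≤ C1 * (N : ℝ) ^ e)
    (hDN : 0 ≤ D * (N : ℝ) ^ e) (hCN : 0 ≤ C2 * (N : ℝ) ^ e) (hBN : 0 ≤ C1 * (N : ℝ) ^ e)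
    (x0 : ℕ)
    (F : Finset (ℕ × ℕ × (ℤ × ℤ × ℤ) × (ℤ × ℤ × ℤ) × ℕ))
    (hF : ∀ z ∈ F, tlP N M z ∧ z.1 = x0) :
    (F.card : ℝ) ≤ (C1 * (N : ℝ) ^ e) *
      ((C2 * (N : ℝ) ^ e) * ((C2 * (N : ℝ) ^ e) * (D * (N : ℝ) ^ e))) := by
  classical
  refine fib_le F (fun z => z.2.1) _ _ ?_ (mul_nonneg hCN (mul_nonneg hCN hDN)) ?_
  · rcases F.eq_empty_or_nonempty with h0 | ⟨w, hw⟩
    · rw [h0, Finset.image_empty, Finset.card_empty, Nat.cast_zero]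
      exact hBN
    · obtain ⟨hP, hx⟩ := hF w hw
      obtain ⟨h1, h2, h3, h4, h5, h6, h7, h8, h9, h10, h11, h12⟩ := hP
      rw [hx] at h1 h2
      refine hB x0 h1 h2 _ ?_
      intro t ht
      obtain ⟨z, hz, rfl⟩ := Finset.mem_image.1 ht
      obtain ⟨hP', e1⟩ := hF z hz
      obtain ⟨q1, q2, q3, q4, q5, q6, q7, q8, q9, q10, q11, q12⟩ := hP'
      rw [e1] at q6
      exact ⟨q4, q5, q6⟩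
  · intro y _
    refine tl_L2 hSC e C2 D N M hN hD hC hDN hCN x0 y _ ?_
    intro z hz
    obtain ⟨hz1, hz2⟩ := Finset.mem_filter.1 hz
    obtain ⟨hP', e1⟩ := hF z hz1
    exact ⟨hP', e1, hz2⟩

/-- the whole count -/
theorem tl_L0 (hSC : ST_SC) (e : ℝ) (C1 C2 D : ℝ) (N M : ℕ) (hN : 1 ≤ N) (hM : 1 ≤ M)
    (hD : ∀ a b c : ℤ,
      |a| ≤ 4 * (N : ℤ) ^ 4 → |b| ≤ 4 * (N : ℤ) ^ 4 → |c| ≤ 4 * (N : ℤ) ^ 4 → a ≠ 0 →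
      b ^ 2 - 4 * a * c ≠ 0 →
      ∀ S : Finset ℕ, (∀ x ∈ S, x ≤ 4 * N ^ 4 ∧ IsSquare (a * (x : ℤ) ^ 2 + b * (x : ℤ) + c)) →
      (S.card : ℝ) ≤ D * (N : ℝ) ^ e)
    (hC : ∀ x : ℕ, 1 ≤ x → x ≤ N →
      ∀ S : Finset (ℤ × ℤ × ℤ), (∀ s ∈ S, Side x s.1 s.2.1 s.2.2) →
      (S.card : ℝ) ≤ C2 * (N : ℝ) ^ e)
    (hB : ∀ a : ℕ, 1 ≤ a → a ≤ N →
      ∀ S : Finset ℕ, (∀ b ∈ S, 1 ≤ b ∧ b ≤ N ∧ IsSquare (a ^ 2 + b ^ 2)) →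
      (S.card : ℝ) ≤ C1 * (N : ℝ) ^ e)
    (hDN : 0 ≤ D * (N : ℝ) ^ e) (hCN : 0 ≤ C2 * (N : ℝ) ^ e) (hBN : 0 ≤ C1 * (N : ℝ) ^ e)
    (F : Finset (ℕ × ℕ × (ℤ × ℤ × ℤ) × (ℤ × ℤ × ℤ) × ℕ))
    (hF : ∀ z ∈ F, tlP N M z) :
    (F.card : ℝ) ≤ ((N : ℝ) / M) * ((C1 * (N : ℝ) ^ e) *
      ((C2 * (N : ℝ) ^ e) * ((C2 * (N : ℝ) ^ e) * (D * (N : ℝ) ^ e)))) := by
  classical
  refine fib_le F (fun z => z.1) _ _ ?_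
    (mul_nonneg hBN (mul_nonneg hCN (mul_nonneg hCN hDN))) ?_
  · have h1 : ((F.image (fun z => z.1)).card : ℝ) ≤ ((N / M : ℕ) : ℝ) := by
      refine card_le_top (N / M) _ ?_
      intro x hx
      obtain ⟨z, hz, rfl⟩ := Finset.mem_image.1 hx
      obtain ⟨q1, q2, q3, q4, q5, q6, q7, q8, q9, q10, q11, q12⟩ := hF z hz
      refine ⟨q1, ?_⟩
      rw [Nat.le_div_iff_mul_le hM, mul_comm]
      exact q3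
    exact h1.trans Nat.cast_div_le
  · intro x _
    refine tl_L1 hSC e C1 C2 D N M hN hD hC hB hDN hCN hBN x _ ?_
    intro z hz
    obtain ⟨hz1, hz2⟩ := Finset.mem_filter.1 hz
    exact ⟨hF z hz1, hz2⟩

/-- the data exist -/
theorem tl_ex (hSIDE : ST_SIDE) (N M : ℕ) (hM : 1 ≤ M) (q : ℕ × ℕ × ℕ × ℕ)
    (h : Quad N q.1 q.2.1 q.2.2.1 q.2.2.2 ∧ Rich M q.1 q.2.1 q.2.2.1 q.2.2.2) :
    ∃ z : ℕ × ℕ × (ℤ × ℤ × ℤ) × (ℤ × ℤ × ℤ) × ℕ, tlP N M z ∧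
      q.1 = z.2.2.2.2 * z.1 ∧ q.2.2.1 = z.2.2.2.2 * z.2.1 ∧
      4 * (q.2.2.2 : ℤ) ^ 2 = z.2.2.1.1 * (z.2.2.2.2 : ℤ) ^ 4 +
        z.2.2.1.2.1 * (z.2.2.2.2 : ℤ) ^ 2 + z.2.2.1.2.2 ∧
      4 * (q.2.1 : ℤ) ^ 2 = z.2.2.2.1.1 * (z.2.2.2.2 : ℤ) ^ 4 +
        z.2.2.2.1.2.1 * (z.2.2.2.2 : ℤ) ^ 2 + z.2.2.2.1.2.2 := by
  obtain ⟨hQ, hR⟩ := h
  obtain ⟨T, x, y, A, B, C, A', B', C', hT, ha, hb, hsq, hs, hs', e1, e2, h1, h2⟩ :=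
    hSIDE N M _ _ _ _ hM hQ hR
  obtain ⟨q1, q2, q3, q4, q5, q6, q7, q8, q9, q10, r1, r2, r3, r4⟩ := hQ
  have hT0 : 0 < T := lt_of_lt_of_le hM hT
  have hx0 : 0 < x := by
    rcases Nat.eq_zero_or_pos x with h0 | h0
    · rw [h0, mul_zero] at ha
      omega
    · exact h0
  have hy0 : 0 < y := by
    rcases Nat.eq_zero_or_pos y with h0 | h0
    · rw [h0, mul_zero] at hb
      omega
    · exact h0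
  have hTx : T * x ≤ N := ha ▸ q2
  have hTy : T * y ≤ N := hb ▸ q6
  refine ⟨(x, y, (A, B, C), (A', B', C'), T), ?_, ha, hb, e1, e2⟩
  refine ⟨hx0, ?_, ?_, hy0, ?_, hsq, hs, hs', h1, h2, ?_, ?_⟩
  · exact (Nat.le_mul_of_pos_left x hT0).trans hTx
  · exact (Nat.mul_le_mul_right x hT).trans hTx
  · exact (Nat.le_mul_of_pos_left y hT0).trans hTy
  · exact (Nat.le_mul_of_pos_right T hx0).trans hTx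
  · obtain ⟨w, hw⟩ := r4
    refine ⟨2 * (w : ℤ), ?_⟩
    have hw' : ((q.2.1 : ℤ)) ^ 2 + (q.2.2.2 : ℤ) ^ 2 = (w : ℤ) * w := by exact_mod_cast hw
    show (A + A') * ((T ^ 2 : ℕ) : ℤ) ^ 2 + (B + B') * ((T ^ 2 : ℕ) : ℤ) + (C + C') =
      2 * (w : ℤ) * (2 * (w : ℤ))
    push_cast
    linear_combination (-1 : ℤ) * e1 - e2 + 4 * hw'

theorem st_TL (hSIDE : ST_SIDE) (hSC : ST_SC) (hNB : ST_NB) (hCON : ST_CON) : ST_TL := by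
  classical
  intro ε hε
  have he : 0 < ε / 4 := by linarith
  obtain ⟨C1, hC1, hB⟩ := hNB (ε / 4) he
  obtain ⟨C2, hC2, hC⟩ := hSC.1 (ε / 4) he
  obtain ⟨D, hD1, hD⟩ := hCON (ε / 4) he 4
  refine ⟨C1 * C2 * C2 * D, ?_, ?_⟩
  · have h1 : 1 ≤ C1 * C2 := one_le_mul_of_one_le_of_one_le hC1 hC2
    have h2 : 1 ≤ C1 * C2 * C2 := one_le_mul_of_one_le_of_one_le h1 hC2
    exact one_le_mul_of_one_le_of_one_le h2 hD1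
  intro N M hN hM S hS
  have hN0 : (0 : ℝ) < N := by exact_mod_cast hN
  have hNe : (0 : ℝ) < (N : ℝ) ^ (ε / 4) := Real.rpow_pos_of_pos hN0 _
  have hex : ∀ q : ℕ × ℕ × ℕ × ℕ, ∃ z : ℕ × ℕ × (ℤ × ℤ × ℤ) × (ℤ × ℤ × ℤ) × ℕ,
      q ∈ S → (tlP N M z ∧
      q.1 = z.2.2.2.2 * z.1 ∧ q.2.2.1 = z.2.2.2.2 * z.2.1 ∧
      4 * (q.2.2.2 : ℤ) ^ 2 = z.2.2.1.1 * (z.2.2.2.2 : ℤ) ^ 4 +
        z.2.2.1.2.1 * (z.2.2.2.2 : ℤ) ^ 2 + z.2.2.1.2.2 ∧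
      4 * (q.2.1 : ℤ) ^ 2 = z.2.2.2.1.1 * (z.2.2.2.2 : ℤ) ^ 4 +
        z.2.2.2.1.2.1 * (z.2.2.2.2 : ℤ) ^ 2 + z.2.2.2.1.2.2) := by
    intro q
    by_cases hq : q ∈ S
    · obtain ⟨z, hz⟩ := tl_ex hSIDE N M hM q (hS q hq)
      exact ⟨z, fun _ => hz⟩
    · exact ⟨(0, 0, (0, 0, 0), (0, 0, 0), 0), fun h => absurd h hq⟩
  choose g hg using hex
  have hcard : (S.card : ℝ) ≤ ((N : ℝ) / M) * ((C1 * (N : ℝ) ^ (ε / 4)) *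
      ((C2 * (N : ℝ) ^ (ε / 4)) * ((C2 * (N : ℝ) ^ (ε / 4)) * (D * (N : ℝ) ^ (ε / 4))))) := by
    refine card_le_of_inj S g _ ?_ ?_
    · intro q hq q' hq' hqq
      obtain ⟨_, a1, a2, a3, a4⟩ := hg q hq
      obtain ⟨_, b1, b2, b3, b4⟩ := hg q' hq'
      rw [hqq] at a1 a2 a3 a4
      have e1 : q.1 = q'.1 := a1.trans b1.symm
      have e2 : q.2.2.1 = q'.2.2.1 := a2.trans b2.symm
      have e3 : (q.2.2.2 : ℤ) ^ 2 = (q'.2.2.2 : ℤ) ^ 2 := by linarith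
      have e4 : (q.2.1 : ℤ) ^ 2 = (q'.2.1 : ℤ) ^ 2 := by linarith
      have e5 : q.2.2.2 = q'.2.2.2 :=
        Nat.pow_left_injective (n := 2) (by norm_num) (by exact_mod_cast e3)
      have e6 : q.2.1 = q'.2.1 :=
        Nat.pow_left_injective (n := 2) (by norm_num) (by exact_mod_cast e4)
      obtain ⟨u1, u2, u3, u4⟩ := q
      obtain ⟨v1, v2, v3, v4⟩ := q'
      simp only at e1 e2 e5 e6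
      rw [e1, e2, e5, e6]
    · refine tl_L0 hSC (ε / 4) C1 C2 D N M hN hM ?_ (hC N hN) (hB N hN) ?_ ?_ ?_ _ ?_
      · intro a b c h1 h2 h3 h4 h5 U hU
        exact hD N hN a b c (by exact_mod_cast h1) (by exact_mod_cast h2)
          (by exact_mod_cast h3) h4 h5 U hU
      · positivity
      · positivity
      · positivity
      · intro z hz
        obtain ⟨q, hq, rfl⟩ := Finset.mem_image.1 hz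
        exact (hg q hq).1
  refine hcard.trans (le_of_eq ?_)
  have hpow : (N : ℝ) ^ (1 + ε) = (N : ℝ) * ((N : ℝ) ^ (ε / 4)) ^ 4 := by
    rw [Real.rpow_add hN0, Real.rpow_one, ← Real.rpow_natCast, ← Real.rpow_mul hN0.le]
    congr 2
    push_cast
    ring
  rw [hpow]
  ring

end Pool.Agent.Helper89.TT
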